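import Pool.Agent.Lib.MP_a60258_c3.Chaos

/-!
# The sixth cumulant in low dimension

Inverse Poincare inequality for polynomials of bounded degree and its consequences for the moments
of an element of the `p`-th chaos over `d` variables.
-/

open MeasureTheory ProbabilityTheory MvPolynomial Filter Topology

namespace A602

namespace Low

variable {S : Finset ℕ}

/-- the square field operator -/
noncomputable def Gm (S : Finset ℕ) (P Q : R) : R := ∑ i ∈ S, pderiv i P * pderiv i Q

/-- the Ornstein-Uhlenbeck generator -/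
noncomputable def LL (S : Finset ℕ) (P : R) : R :=
  ∑ i ∈ S, (pderiv i (pderiv i P) - X i * pderiv i P)

lemma Gm_comm (P Q : R) : Gm S P Q = Gm S Q P :=
  Finset.sum_congr rfl fun _ _ => mul_comm _ _

lemma Gm_add (P Q T : R) : Gm S P (Q + T) = Gm S P Q + Gm S P T := by
  unfold Gm
  rw [← Finset.sum_add_distrib]
  exact Finset.sum_congr rfl fun i _ => by rw [map_add, mul_add]

lemma Gm_mul (P Q T : R) : Gm S P (Q * T) = Q * Gm S P T + T * Gm S P Q := by
  unfold Gm
  rw [Finset.mul_sum, Finset.mul_sum, ← Finset.sum_add_distrib]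
  exact Finset.sum_congr rfl fun i _ => by
    rw [Derivation.leibniz]
    simp only [smul_eq_mul]
    ring

lemma Gm_C (P : R) (c : ℝ) : Gm S P (C c) = 0 := by
  unfold Gm
  exact Finset.sum_eq_zero fun i _ => by rw [pderiv_C, mul_zero]

lemma Gm_one (P : R) : Gm S P 1 = 0 := by rw [← C_1, Gm_C]

lemma Gm_smul (P Q : R) (c : ℝ) : Gm S P (c • Q) = c • Gm S P Q := by
  unfold Gm
  rw [Finset.smul_sum]
  exact Finset.sum_congr rfl fun i _ => by rw [Derivation.map_smul, mul_smul_comm]

lemma Gm_pow (P Q : R) (n : ℕ) : Gm S P (Q ^ n) = (n : ℝ) • (Q ^ (n - 1) * Gm S P Q) := by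
  unfold Gm
  rw [Finset.mul_sum, Finset.smul_sum]
  exact Finset.sum_congr rfl fun i _ => by
    rw [Derivation.leibniz_pow]
    simp only [smul_eq_mul, nsmul_eq_mul, smul_eq_C_mul, map_natCast]
    ring

/-- integration by parts -/
lemma E_LL_mul (P Q : R) : E (LL S P * Q) = -E (Gm S P Q) := by
  unfold LL Gm
  rw [Finset.sum_mul, map_sum, map_sum, ← Finset.sum_neg_distrib]
  refine Finset.sum_congr rfl fun i _ => ?_
  rw [sub_mul, map_sub, mul_assoc, E_X_mul, Derivation.leibniz, map_add]
  simp only [smul_eq_mul]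
  rw [mul_comm Q]
  ring

/-- polynomials of degree at most `n` in the variables of `S` -/
def Dg (S : Finset ℕ) : ℕ → R → Prop
  | 0, P => ∀ j ∈ S, pderiv j P = 0
  | n + 1, P => ∀ j ∈ S, Dg S n (pderiv j P)

lemma Dg.zero : ∀ n, Dg S n 0
  | 0 => fun j _ => map_zero _
  | n + 1 => fun j _ => by rw [map_zero]; exact Dg.zero n

lemma Dg.C (c : ℝ) : ∀ n, Dg S n (C c)
  | 0 => fun j _ => pderiv_C
  | n + 1 => fun j _ => by rw [pderiv_C]; exact Dg.zero n

lemma Dg.succ : ∀ {n : ℕ} {P : R}, Dg S n P → Dg S (n + 1) P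
  | 0, P, h => fun j hj => by rw [h j hj]; exact Dg.zero 0
  | n + 1, P, h => fun j hj => (h j hj).succ

lemma Dg.mono {m n : ℕ} (hmn : m ≤ n) {P : R} (h : Dg S m P) : Dg S n P := by
  induction hmn with
  | refl => exact h
  | step _ ih => exact ih.succ

lemma Dg.add : ∀ {n : ℕ} {P Q : R}, Dg S n P → Dg S n Q → Dg S n (P + Q)
  | 0, P, Q, hP, hQ => fun j hj => by rw [map_add, hP j hj, hQ j hj, add_zero]
  | n + 1, P, Q, hP, hQ => fun j hj => by rw [map_add]; exact (hP j hj).add (hQ j hj)

lemma Dg.smul : ∀ {n : ℕ} {P : R} (c : ℝ), Dg S n P → Dg S n (c • P)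
  | 0, P, c, hP => fun j hj => by rw [Derivation.map_smul, hP j hj, smul_zero]
  | n + 1, P, c, hP => fun j hj => by rw [Derivation.map_smul]; exact (hP j hj).smul c

lemma Dg.sum {κ : Type*} {n : ℕ} (s : Finset κ) {P : κ → R} (h : ∀ k ∈ s, Dg S n (P k)) :
    Dg S n (∑ k ∈ s, P k) := by
  classical
  induction s using Finset.induction_on with
  | empty => simpa using Dg.zero n
  | insert a s ha ih =>
    rw [Finset.sum_insert ha]
    exact (h a (Finset.mem_insert_self _ _)).add (ih fun k hk => h k (Finset.mem_insert_of_mem hk))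

lemma Dg.mul' : ∀ (k m n : ℕ) {P Q : R}, m + n = k → Dg S m P → Dg S n Q → Dg S k (P * Q)
  | 0, m, n, P, Q, hk, hP, hQ => by
      obtain rfl : m = 0 := by omega
      obtain rfl : n = 0 := by omega
      intro j hj
      rw [Derivation.leibniz, hP j hj, hQ j hj, smul_zero, smul_zero, add_zero]
  | k + 1, m, n, P, Q, hk, hP, hQ => by
      intro j hj
      rw [Derivation.leibniz, smul_eq_mul, smul_eq_mul]
      refine Dg.add ?_ ?_
      · rcases n with _ | n
        · rw [hQ j hj, mul_zero]; exact Dg.zero k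
        · exact Dg.mul' k m n (by omega) hP (hQ j hj)
      · rcases m with _ | m
        · rw [hP j hj, mul_zero]; exact Dg.zero k
        · exact Dg.mul' k n m (by omega) hQ (hP j hj)

lemma Dg.mul {m n : ℕ} {P Q : R} (hP : Dg S m P) (hQ : Dg S n Q) : Dg S (m + n) (P * Q) :=
  Dg.mul' _ m n rfl hP hQ

lemma Dg.pow {m : ℕ} {P : R} (hP : Dg S m P) : ∀ n, Dg S (n * m) (P ^ n)
  | 0 => by rw [pow_zero, ← C_1]; exact Dg.C 1 _
  | n + 1 => by
      rw [pow_succ, Nat.succ_mul]
      exact (hP.pow n).mul hP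

lemma Dg.of_cha : ∀ {p : ℕ} {P : R}, Cha S p P → Dg S p P
  | 0, P, ⟨c, hc⟩ => by rw [hc]; exact Dg.C c 0
  | p + 1, P, hP => fun j _ => Dg.of_cha (hP.1 j)

/-- commutation of the generator and a derivative -/
lemma pderiv_LL {i : ℕ} (hi : i ∈ S) (P : R) :
    pderiv i (LL S P) = LL S (pderiv i P) - pderiv i P := by
  unfold LL
  rw [map_sum]
  have h : ∀ j ∈ S, pderiv i (pderiv j (pderiv j P) - X j * pderiv j P)
      = (pderiv j (pderiv j (pderiv i P)) - X j * pderiv j (pderiv i P))
        - (if j = i then pderiv i P else 0) := by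
    intro j _
    rw [map_sub, Derivation.leibniz, pderiv_comm i j (pderiv j P), pderiv_comm i j P]
    simp only [smul_eq_mul]
    by_cases hj : j = i
    · subst hj
      rw [if_pos rfl, pderiv_X_self]
      ring
    · rw [if_neg hj, pderiv_X_of_ne hj]
      ring
  rw [Finset.sum_congr rfl h, Finset.sum_sub_distrib, Finset.sum_ite_eq' S i, if_pos hi]

/-- the inverse Poincare inequality -/
theorem inv_poincare : ∀ (n : ℕ) {P : R}, Dg S n P → E (Gm S P P) ≤ n * E (P ^ 2)
  | 0, P, h => by
      have h1 : Gm S P P = 0 := Finset.sum_eq_zero fun j hj => by rw [h j hj, mul_zero]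
      rw [h1, map_zero]
      simp
  | n + 1, P, h => by
      have hsq : ∀ Q : R, 0 ≤ E (Q ^ 2) := fun Q => E_nonneg fun ω => by
        rw [map_pow]; exact sq_nonneg _
      have hG : E (Gm S P P) = ∑ i ∈ S, E (pderiv i P ^ 2) := by
        unfold Gm
        rw [map_sum]
        exact Finset.sum_congr rfl fun i _ => by rw [pow_two]
      have h1 : E (LL S P ^ 2) = ∑ i ∈ S, E (Gm S (pderiv i P) (pderiv i P)) + E (Gm S P P) := by
        rw [pow_two, E_LL_mul, hG]
        unfold Gm
        rw [map_sum, ← Finset.sum_neg_distrib, ← Finset.sum_add_distrib]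
        refine Finset.sum_congr rfl fun i hi => ?_
        rw [pderiv_LL hi, mul_sub, map_sub, mul_comm (pderiv i P) (LL S (pderiv i P)), E_LL_mul,
          pow_two]
        unfold Gm
        ring
      have h2 : ∑ i ∈ S, E (Gm S (pderiv i P) (pderiv i P)) ≤ n * E (Gm S P P) := by
        rw [hG, Finset.mul_sum]
        exact Finset.sum_le_sum fun i hi => inv_poincare n (h i hi)
      have h3 : E (Gm S P P) ^ 2 ≤ E (LL S P ^ 2) * E (P ^ 2) := by
        have h4 := E_cauchy (LL S P) P
        rw [E_LL_mul] at h4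
        simpa using h4
      have h5 : E (Gm S P P) ^ 2 ≤ ((n + 1 : ℕ) : ℝ) * E (P ^ 2) * E (Gm S P P) := by
        have h6 : E (LL S P ^ 2) ≤ ((n + 1 : ℕ) : ℝ) * E (Gm S P P) := by
          rw [h1]; push_cast; linarith
        have h7 := mul_le_mul_of_nonneg_right h6 (hsq P)
        linarith
      rcases le_or_gt (E (Gm S P P)) 0 with h0 | h0
      · exact h0.trans (mul_nonneg (Nat.cast_nonneg _) (hsq P))
      · rw [pow_two] at h5
        exact le_of_mul_le_mul_right h5 h0

/-- the bilinear form -/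
noncomputable def BB (S : Finset ℕ) (N : ℕ) (P Q : R) : ℝ := N * E (P * Q) - E (Gm S P Q)

lemma BB_nonneg {N : ℕ} {P : R} (h : Dg S N P) : 0 ≤ BB S N P P := by
  have h1 := inv_poincare N h
  unfold BB
  rw [← pow_two]
  linarith

lemma BB_comm (N : ℕ) (P Q : R) : BB S N P Q = BB S N Q P := by
  unfold BB
  rw [mul_comm P Q, Gm_comm]

lemma BB_add (N : ℕ) (P Q T : R) : BB S N P (Q + T) = BB S N P Q + BB S N P T := by
  unfold BB
  rw [Gm_add, mul_add, map_add, map_add]
  ring

lemma BB_smul (N : ℕ) (P Q : R) (c : ℝ) : BB S N P (c • Q) = c * BB S N P Q := by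
  unfold BB
  rw [Gm_smul, mul_smul_comm, map_smul, map_smul, smul_eq_mul, smul_eq_mul]
  ring

end Low

end A602
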