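import Pool.Agent.Lib.MP_a60258_low.Low

/-!
# The sixth cumulant in low dimension: the moment inequalities
-/

open MeasureTheory ProbabilityTheory MvPolynomial Filter Topology

namespace A602

namespace Low

variable {S : Finset ℕ} {p : ℕ} {P : R}

lemma E_sq_nn (Q : R) : 0 ≤ E (Q ^ 2) := E_nonneg fun ω => by rw [map_pow]; exact sq_nonneg _

lemma ibpG (hP : Cha S p P) (G : R) : (p : ℝ) * E (P * G) = E (Gm S P G) := by
  rw [hP.ibp G]
  unfold Gm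
  rw [map_sum]

lemma orth {q : ℕ} {Q : R} (hP : Cha S p P) (hQ : Cha S q Q) (hpq : p ≠ q) : E (P * Q) = 0 := by
  have h1 := ibpG hP Q
  have h2 := ibpG hQ P
  rw [Gm_comm, ← h1, mul_comm Q P] at h2
  have h3 : ((p : ℝ) - q) * E (P * Q) = 0 := by linarith
  have h4 : ((p : ℝ) - q) ≠ 0 := sub_ne_zero.mpr (by exact_mod_cast hpq)
  exact (mul_eq_zero.mp h3).resolve_left h4

lemma Gm_pow_pow (a b : ℕ) : Gm S (P ^ a) (P ^ b)
    = ((a : ℝ) * b) • (P ^ (a - 1) * P ^ (b - 1) * Gm S P P) := by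
  rw [Gm_pow, Gm_comm, Gm_pow, mul_smul_comm, smul_smul]
  congr 1
  · ring
  · ring

lemma E_pow_gm (hP : Cha S p P) (k : ℕ) :
    ((k : ℝ) + 1) * E (P ^ k * Gm S P P) = p * E (P ^ (k + 2)) := by
  have h1 := ibpG hP (P ^ (k + 1))
  rw [Gm_pow, map_smul, smul_eq_mul, Nat.add_sub_cancel] at h1
  rw [← pow_succ'] at h1
  push_cast at h1
  rw [h1]

/-- the radial element of the second chaos -/
noncomputable def ww (S : Finset ℕ) : R := ∑ i ∈ S, (X i ^ 2 - 1)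

lemma pderiv_ww {i : ℕ} (hi : i ∈ S) : pderiv i (ww S) = (2 : ℝ) • X i := by
  unfold ww
  rw [map_sum]
  have h : ∀ j ∈ S, pderiv i ((X j : R) ^ 2 - 1) = if j = i then (2 : ℝ) • X i else 0 := by
    intro j _
    rw [map_sub, Derivation.leibniz_pow, ← C_1, pderiv_C, sub_zero]
    by_cases hj : j = i
    · subst hj
      rw [if_pos rfl, pderiv_X_self]
      simp [smul_eq_C_mul]
      exact (map_ofNat (C : ℝ →+* R) 2).symm
    · rw [if_neg hj, pderiv_X_of_ne hj]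
      simp
  rw [Finset.sum_congr rfl h, Finset.sum_ite_eq' S i, if_pos hi]

lemma LL_ww : LL S (ww S) = (-2 : ℝ) • ww S := by
  unfold LL
  have h : ∀ i ∈ S, pderiv i (pderiv i (ww S)) - X i * pderiv i (ww S)
      = (-2 : ℝ) • ((X i : R) ^ 2 - 1) := by
    intro i hi
    rw [pderiv_ww hi, Derivation.map_smul, pderiv_X_self]
    simp only [smul_eq_C_mul, map_neg, map_ofNat]
    ring
  rw [Finset.sum_congr rfl h, ← Finset.smul_sum]
  rfl

lemma Gm_ww : Gm S (ww S) (ww S) = (4 : ℝ) • ww S + C (4 * (S.card : ℝ)) := by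
  unfold Gm
  have h : ∀ i ∈ S, pderiv i (ww S) * pderiv i (ww S) = (4 : ℝ) • ((X i : R) ^ 2 - 1) + C 4 := by
    intro i hi
    rw [pderiv_ww hi]
    simp only [smul_eq_C_mul, map_ofNat]
    ring
  rw [Finset.sum_congr rfl h, Finset.sum_add_distrib, ← Finset.smul_sum, Finset.sum_const]
  congr 1
  rw [nsmul_eq_mul, mul_comm (4 : ℝ), C_mul, map_natCast]

lemma E_ww_mul (Q : R) : 2 * E (ww S * Q) = E (Gm S (ww S) Q) := by
  have h := E_LL_mul (S := S) (ww S) Q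
  rw [LL_ww, smul_mul_assoc, map_smul, smul_eq_mul] at h
  linarith

lemma E_ww : E (ww S) = 0 := by
  have h := E_ww_mul (S := S) 1
  rw [Gm_one, map_zero, mul_one] at h
  linarith

lemma E_ww_ww : E (ww S * ww S) = 2 * (S.card : ℝ) := by
  have h := E_ww_mul (S := S) (ww S)
  rw [Gm_ww, map_add, map_smul, E_ww, E_C, smul_zero, zero_add] at h
  linarith

lemma E_ww_P (hP : Cha S p P) (hp : p ≠ 2) : E (ww S * P) = 0 := by
  have h1 := E_ww_mul (S := S) P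
  have h2 := ibpG hP (ww S)
  rw [Gm_comm, ← h1, mul_comm P] at h2
  have h3 : ((p : ℝ) - 2) * E (ww S * P) = 0 := by linarith
  have h4 : ((p : ℝ) - 2) ≠ 0 := sub_ne_zero.mpr (by exact_mod_cast hp)
  exact (mul_eq_zero.mp h3).resolve_left h4

lemma Gm_ww_P {q : ℕ} (hP : Cha S (q + 1) P) :
    Gm S (ww S) P = (2 * ((q : ℝ) + 1)) • P + (2 : ℝ) • ∑ i ∈ S, pderiv i (pderiv i P) := by
  have h1 : Gm S (ww S) P = (2 : ℝ) • ∑ i ∈ S, X i * pderiv i P := by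
    unfold Gm
    rw [Finset.smul_sum]
    exact Finset.sum_congr rfl fun i hi => by rw [pderiv_ww hi, smul_mul_assoc]
  have h2 := hP.2.2
  rw [Finset.sum_sub_distrib, sub_eq_iff_eq_add] at h2
  rw [h1, h2, smul_add, smul_smul]

lemma E_ww_sq {q : ℕ} (hP : Cha S (q + 2) P) :
    E (ww S * P ^ 2) = 2 * ((q : ℝ) + 2) * E (P ^ 2) := by
  have h1 := E_ww_mul (S := S) (P ^ 2)
  rw [Gm_pow, Gm_ww_P hP] at h1
  have h3 : Cha S q (∑ i ∈ S, pderiv i (pderiv i P)) := by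
    refine Cha.sum S fun i _ => ?_
    exact (hP.1 i).1 i
  have h4 := orth hP h3 (by omega)
  have h5 : ((2 : ℕ) : ℝ) • (P ^ (2 - 1) * ((2 * (((q + 1 : ℕ) : ℝ) + 1)) • P
      + (2 : ℝ) • ∑ i ∈ S, pderiv i (pderiv i P)))
      = (4 * ((q : ℝ) + 2)) • P ^ 2 + (4 : ℝ) • (P * ∑ i ∈ S, pderiv i (pderiv i P)) := by
    simp only [smul_eq_C_mul, Nat.add_one_sub_one, pow_one]
    push_cast
    simp only [map_mul, map_add, map_natCast, map_ofNat, map_one]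
    ring
  rw [h5, map_add, map_smul, map_smul, h4, smul_eq_mul, smul_zero, add_zero] at h1
  linarith

lemma Dg_ww : Dg S 2 (ww S) := by
  intro j hj k hk
  rw [pderiv_ww hj, Derivation.map_smul]
  intro l _
  by_cases h : j = k
  · subst h
    rw [pderiv_X_self, Derivation.map_smul, ← C_1, pderiv_C, smul_zero]
  · rw [pderiv_X_of_ne h, smul_zero, map_zero]

/-- first family of inequalities -/
lemma ineq_one (hP : Cha S p P) (hp : 1 ≤ p) (a b : ℝ) :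
    0 ≤ (6 / 5 : ℝ) * E (P ^ 6) + 4 * a * E (P ^ 4) + 2 * a ^ 2 * E (P ^ 2)
      + 6 * b * E (P ^ 3) + 3 * b ^ 2 := by
  have hp0 : (0 : ℝ) < p := by exact_mod_cast hp
  have hD : Dg S (3 * p) (P ^ 3 + (a • P + b • 1)) := by
    refine ((Dg.of_cha hP).pow 3).add (Dg.add ?_ ?_)
    · exact ((Dg.of_cha hP).smul a).mono (by omega)
    · rw [← C_1]; exact (Dg.C 1 _).smul b
  have h0 := BB_nonneg hD
  set g := Gm S P P with hg
  have e2 := E_pow_gm hP 2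
  have e4 := E_pow_gm hP 4
  have e0 := E_pow_gm hP 0
  have e1 := E_pow_gm hP 1
  rw [← hg] at e0 e1 e2 e4
  rw [pow_zero, one_mul] at e0
  norm_num at e0 e1 e2 e4
  have eP : E P = 0 := by
    have := ibpG hP 1
    rw [Gm_one, map_zero, mul_one] at this
    exact (mul_eq_zero.mp this).resolve_left hp0.ne'
  have b33 : BB S (3 * p) (P ^ 3) (P ^ 3) = 3 * p * E (P ^ 6) - 9 * E (P ^ 4 * g) := by
    unfold BB
    rw [Gm_pow_pow, map_smul, smul_eq_mul, ← hg]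
    have : P ^ (3 - 1) * P ^ (3 - 1) * g = P ^ 4 * g := by ring
    rw [this, ← pow_add]
    push_cast
    ring
  have b31 : BB S (3 * p) (P ^ 3) P = 3 * p * E (P ^ 4) - 3 * E (P ^ 2 * g) := by
    unfold BB
    rw [Gm_comm, Gm_pow, map_smul, smul_eq_mul, ← hg, ← pow_succ]
    push_cast
    rfl
  have b11 : BB S (3 * p) P P = 3 * p * E (P ^ 2) - E g := by
    unfold BB
    rw [← hg, ← pow_two]
    push_cast
    rfl
  have b30 : BB S (3 * p) (P ^ 3) 1 = 3 * p * E (P ^ 3) := by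
    unfold BB
    rw [Gm_one, map_zero, mul_one]
    push_cast
    ring
  have b10 : BB S (3 * p) P 1 = 0 := by
    unfold BB
    rw [Gm_one, map_zero, mul_one, eP]
    ring
  have b00 : BB S (3 * p) 1 1 = 3 * p := by
    unfold BB
    rw [Gm_one, map_zero, mul_one]
    have : E (1 : R) = 1 := by rw [← C_1, E_C]
    rw [this]
    push_cast
    ring
  set N := 3 * p with hN
  have hx : BB S N (P ^ 3 + (a • P + b • 1)) (P ^ 3 + (a • P + b • 1))
      = BB S N (P ^ 3) (P ^ 3) + 2 * a * BB S N (P ^ 3) P + a ^ 2 * BB S N P P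
        + 2 * b * BB S N (P ^ 3) 1 + 2 * a * b * BB S N P 1 + b ^ 2 * BB S N 1 1 := by
    rw [BB_add, BB_add, BB_smul, BB_smul, BB_comm N _ (P ^ 3), BB_comm N _ P, BB_comm N _ 1]
    simp only [BB_add, BB_smul]
    rw [BB_comm N P (P ^ 3), BB_comm N 1 (P ^ 3), BB_comm N 1 P]
    ring
  rw [hx, b33, b31, b11, b30, b10, b00] at h0
  have f4 : E (P ^ 4 * g) = p * E (P ^ 6) / 5 := by linarith
  have f2 : E (P ^ 2 * g) = p * E (P ^ 4) / 3 := by linarith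
  have f0 : E g = p * E (P ^ 2) := by linarith
  rw [f4, f2, f0] at h0
  have h1 : (p : ℝ) * ((6 / 5 : ℝ) * E (P ^ 6) + 4 * a * E (P ^ 4) + 2 * a ^ 2 * E (P ^ 2)
      + 6 * b * E (P ^ 3) + 3 * b ^ 2) = 3 * p * E (P ^ 6) - 9 * (p * E (P ^ 6) / 5)
      + 2 * a * (3 * p * E (P ^ 4) - 3 * (p * E (P ^ 4) / 3))
      + a ^ 2 * (3 * p * E (P ^ 2) - p * E (P ^ 2)) + 2 * b * (3 * p * E (P ^ 3))
      + 2 * a * b * 0 + b ^ 2 * (3 * p) := by ring
  rw [← h1] at h0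
  exact nonneg_of_mul_nonneg_right h0 hp0

/-- second family of inequalities -/
lemma ineq_two {q : ℕ} (hP : Cha S (q + 3) P) (a b c : ℝ) :
    0 ≤ (2 / 3 : ℝ) * ((q : ℝ) + 3) * E (P ^ 4) + 2 * ((q : ℝ) + 3) * a * E (P ^ 3)
      + ((q : ℝ) + 3) * a ^ 2 * E (P ^ 2) + 4 * ((q : ℝ) + 3) * b * E (P ^ 2)
      + 2 * ((q : ℝ) + 3) * b ^ 2 + 8 * ((q : ℝ) + 3) * ((q : ℝ) + 2) * c * E (P ^ 2)
      + 4 * S.card * ((q : ℝ) + 2) * c ^ 2 := by
  have hD : Dg S (2 * (q + 3)) (P ^ 2 + (a • P + (b • 1 + c • ww S))) := by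
    refine ((Dg.of_cha hP).pow 2).add (Dg.add ?_ (Dg.add ?_ ?_))
    · exact ((Dg.of_cha hP).smul a).mono (by omega)
    · rw [← C_1]; exact (Dg.C 1 _).smul b
    · exact (Dg_ww.smul c).mono (by omega)
  have h0 := BB_nonneg hD
  set g := Gm S P P with hg
  have e2 := E_pow_gm hP 2
  have e0 := E_pow_gm hP 0
  have e1 := E_pow_gm hP 1
  rw [← hg] at e0 e1 e2
  rw [pow_zero, one_mul] at e0
  norm_num at e0 e1 e2
  have eP : E P = 0 := by
    have := ibpG hP 1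
    rw [Gm_one, map_zero, mul_one] at this
    exact (mul_eq_zero.mp this).resolve_left (by positivity)
  have b22 : BB S (2 * (q + 3)) (P ^ 2) (P ^ 2)
      = 2 * ((q : ℝ) + 3) * E (P ^ 4) - 4 * E (P ^ 2 * g) := by
    unfold BB
    rw [Gm_pow_pow, map_smul, smul_eq_mul, ← hg]
    have : P ^ (2 - 1) * P ^ (2 - 1) * g = P ^ 2 * g := by ring
    rw [this, ← pow_add]
    push_cast
    ring
  have b21 : BB S (2 * (q + 3)) (P ^ 2) P
      = 2 * ((q : ℝ) + 3) * E (P ^ 3) - 2 * E (P * g) := by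
    unfold BB
    rw [Gm_comm, Gm_pow, map_smul, smul_eq_mul, ← hg, ← pow_succ]
    simp only [Nat.add_one_sub_one, pow_one]
    push_cast
    rfl
  have b11 : BB S (2 * (q + 3)) P P = 2 * ((q : ℝ) + 3) * E (P ^ 2) - E g := by
    unfold BB
    rw [← hg, ← pow_two]
    push_cast
    rfl
  have b20 : BB S (2 * (q + 3)) (P ^ 2) 1 = 2 * ((q : ℝ) + 3) * E (P ^ 2) := by
    unfold BB
    rw [Gm_one, map_zero, mul_one]
    push_cast
    ring
  have b10 : BB S (2 * (q + 3)) P 1 = 0 := by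
    unfold BB
    rw [Gm_one, map_zero, mul_one, eP]
    ring
  have b00 : BB S (2 * (q + 3)) 1 1 = 2 * ((q : ℝ) + 3) := by
    unfold BB
    rw [Gm_one, map_zero, mul_one]
    have : E (1 : R) = 1 := by rw [← C_1, E_C]
    rw [this]
    push_cast
    ring
  have w2 : E (ww S * P ^ 2) = 2 * ((q : ℝ) + 3) * E (P ^ 2) := by
    have := E_ww_sq (q := q + 1) hP
    rw [this]
    push_cast
    ring
  have b2w : BB S (2 * (q + 3)) (P ^ 2) (ww S)
      = 4 * ((q : ℝ) + 3) * ((q : ℝ) + 2) * E (P ^ 2) := by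
    unfold BB
    rw [Gm_comm, ← E_ww_mul, mul_comm (P ^ 2), w2]
    push_cast
    ring
  have b1w : BB S (2 * (q + 3)) P (ww S) = 0 := by
    unfold BB
    rw [Gm_comm, ← E_ww_mul, mul_comm P, E_ww_P hP (by omega)]
    ring
  have b0w : BB S (2 * (q + 3)) 1 (ww S) = 0 := by
    unfold BB
    rw [Gm_comm, Gm_one, map_zero, one_mul, E_ww]
    ring
  have bww : BB S (2 * (q + 3)) (ww S) (ww S) = 4 * S.card * ((q : ℝ) + 2) := by
    unfold BB
    rw [← E_ww_mul, E_ww_ww]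
    push_cast
    ring
  set N := 2 * (q + 3) with hN
  have hx : BB S N (P ^ 2 + (a • P + (b • 1 + c • ww S))) (P ^ 2 + (a • P + (b • 1 + c • ww S)))
      = BB S N (P ^ 2) (P ^ 2) + 2 * a * BB S N (P ^ 2) P + a ^ 2 * BB S N P P
        + 2 * b * BB S N (P ^ 2) 1 + 2 * a * b * BB S N P 1 + b ^ 2 * BB S N 1 1
        + 2 * c * BB S N (P ^ 2) (ww S) + 2 * a * c * BB S N P (ww S)
        + 2 * b * c * BB S N 1 (ww S) + c ^ 2 * BB S N (ww S) (ww S) := by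
    rw [BB_add, BB_add, BB_add, BB_smul, BB_smul, BB_smul, BB_comm N _ (P ^ 2), BB_comm N _ P,
      BB_comm N _ 1, BB_comm N _ (ww S)]
    simp only [BB_add, BB_smul]
    rw [BB_comm N P (P ^ 2), BB_comm N 1 (P ^ 2), BB_comm N 1 P, BB_comm N (ww S) (P ^ 2),
      BB_comm N (ww S) P, BB_comm N (ww S) 1]
    ring
  rw [hx, b22, b21, b11, b20, b10, b00, b2w, b1w, b0w, bww] at h0
  have f2 : E (P ^ 2 * g) = ((q : ℝ) + 3) * E (P ^ 4) / 3 := by linarith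
  have f1 : E (P * g) = ((q : ℝ) + 3) * E (P ^ 3) / 2 := by linarith
  have f0 : E g = ((q : ℝ) + 3) * E (P ^ 2) := by linarith
  rw [f2, f1, f0] at h0
  refine h0.trans (le_of_eq ?_)
  ring

/-- the main inequality for polynomials -/
theorem k6_low {q d : ℕ} (hP : Cha S (q + 3) P) (hS : S.card = d) (hm : 0 < E (P ^ 2))
    (hd : d < 2 * (q + 3) * (q + 2)) :
    0 < d ∧ 6 * ((q : ℝ) + 3) * ((q : ℝ) + 2) * E (P ^ 2) ^ 2
        ≤ d * (E (P ^ 4) - 3 * E (P ^ 2) ^ 2) ∧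
      15 * (2 * ((q : ℝ) + 3) * ((q : ℝ) + 2)) * (2 * ((q : ℝ) + 3) * ((q : ℝ) + 2) - d)
          * E (P ^ 2) ^ 3 ≤ (d : ℝ) ^ 2 * k6 P := by
  have hA := ineq_one hP (by omega)
  have hB := ineq_two hP
  rw [hS] at hB
  unfold k6
  set m := E (P ^ 2) with hmdef
  set t := E (P ^ 3) with htdef
  set f := E (P ^ 4) with hfdef
  set s := E (P ^ 6) with hsdef
  obtain ⟨π, hπ⟩ : ∃ π : ℝ, π = (q : ℝ) + 3 := ⟨_, rfl⟩
  have hπ1 : (q : ℝ) + 2 = π - 1 := by rw [hπ]; ring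
  have hπ3 : 3 ≤ π := by rw [hπ]; have := Nat.cast_nonneg (α := ℝ) q; linarith
  rw [← hπ, hπ1]
  simp only [← hπ, hπ1] at hB
  have hdr : (d : ℝ) < 2 * π * (π - 1) := by
    have : (d : ℝ) < ((2 * (q + 3) * (q + 2) : ℕ) : ℝ) := by exact_mod_cast hd
    push_cast at this
    rw [← hπ, hπ1] at this
    exact this
  have hd0 : 0 < d := by
    rcases Nat.eq_zero_or_pos d with h | h
    · exfalso
      subst h
      have h1 := hB 0 0 (-((2 / 3 : ℝ) * π * f + 1) / (8 * π * (π - 1) * m))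
      have h2 : 8 * π * (π - 1) * (-((2 / 3 : ℝ) * π * f + 1) / (8 * π * (π - 1) * m)) * m
          = -((2 / 3 : ℝ) * π * f + 1) := by
        have : π - 1 ≠ 0 := by linarith
        field_simp
      rw [h2] at h1
      push_cast at h1
      linarith
    · exact h
  have hdr0 : (0 : ℝ) < d := by exact_mod_cast hd0
  refine ⟨hd0, ?_⟩
  obtain ⟨r, hr⟩ : ∃ r : ℝ, r = 2 * π * (π - 1) / d := ⟨_, rfl⟩
  have hrd : r * d = 2 * π * (π - 1) := by rw [hr]; field_simp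
  have hr1 : 1 ≤ r := by
    rw [hr, le_div_iff₀ hdr0]; linarith
  -- first inequality
  have A : 10 * f ^ 2 + 15 * t ^ 2 * m ≤ 6 * s * m := by
    have h1 := hA (-f / m) (-t)
    have h2 : 5 * m * ((6 / 5 : ℝ) * s + 4 * (-f / m) * f + 2 * (-f / m) ^ 2 * m
        + 6 * (-t) * t + 3 * (-t) ^ 2) = 6 * s * m - 10 * f ^ 2 - 15 * t ^ 2 * m := by
      field_simp
      ring
    have h3 := mul_nonneg (by positivity : 0 ≤ 5 * m) h1
    rw [h2] at h3
    linarith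
  -- second inequality
  have B : 3 * t ^ 2 ≤ 2 * m * (f - 3 * m ^ 2) - 6 * r * m ^ 3 := by
    have h1 := hB (-t / m) (-m) (-(π * m) / d)
    have h2 : 3 * m * ((2 / 3 : ℝ) * π * f + 2 * π * (-t / m) * t + π * (-t / m) ^ 2 * m
        + 4 * π * (-m) * m + 2 * π * (-m) ^ 2 + 8 * π * (π - 1) * (-(π * m) / d) * m
        + 4 * d * (π - 1) * (-(π * m) / d) ^ 2)
        = π * (2 * m * (f - 3 * m ^ 2) - 6 * r * m ^ 3 - 3 * t ^ 2) := by
      rw [hr]
      field_simp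
      ring
    have h3 := mul_nonneg (by positivity : 0 ≤ 3 * m) h1
    rw [h2] at h3
    have h4 := nonneg_of_mul_nonneg_right h3 (by linarith : 0 < π)
    linarith
  have K0 : 3 * r * m ^ 2 ≤ f - 3 * m ^ 2 := by
    have h1 : (3 * r * m ^ 2) * (2 * m) ≤ (f - 3 * m ^ 2) * (2 * m) := by
      have := sq_nonneg t
      nlinarith
    exact le_of_mul_le_mul_right h1 (by positivity)
  constructor
  · have h1 := mul_le_mul_of_nonneg_right K0 hdr0.le
    have h2 : 3 * r * m ^ 2 * d = 6 * π * (π - 1) * m ^ 2 := by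
      calc 3 * r * m ^ 2 * d = 3 * m ^ 2 * (r * d) := by ring
        _ = _ := by rw [hrd]; ring
    rw [h2] at h1
    linarith
  · have h1 : 15 * r * (r - 1) * m ^ 3 ≤ s - 15 * m * f - 10 * t ^ 2 + 30 * m ^ 3 := by
      have h2 : 0 ≤ (f - 3 * m ^ 2 - 3 * r * m ^ 2) * (f - 3 * m ^ 2 + 3 * r * m ^ 2 - 6 * m ^ 2) := by
        refine mul_nonneg (by linarith) ?_
        have : 3 * m ^ 2 ≤ 3 * r * m ^ 2 := by nlinarith [sq_nonneg m]
        linarith
      have h3 : (15 * r * (r - 1) * m ^ 3) * (6 * m)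
          ≤ (s - 15 * m * f - 10 * t ^ 2 + 30 * m ^ 3) * (6 * m) := by
        have h4 := mul_le_mul_of_nonneg_left B (by positivity : 0 ≤ 15 * m)
        nlinarith
      exact le_of_mul_le_mul_right h3 (by positivity)
    have h2 := mul_le_mul_of_nonneg_left h1 (by positivity : 0 ≤ (d : ℝ) ^ 2)
    refine le_trans (le_of_eq ?_) h2
    rw [← hrd]
    ring

/-- polynomials in `d` variables belong to the chaos over the first `d` variables -/
lemma cha_low {d : ℕ} {s : Finset (ℕ →₀ ℕ)} (c : (ℕ →₀ ℕ) → ℝ)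
    (hs : ∀ α ∈ s, (α.sum fun _ k => k) = p ∧ ∀ i ∈ α.support, i < d) :
    Cha (Finset.range d) p (chp s c) := by
  classical
  refine Cha.sum s fun α hα => Cha.smul _ ?_
  have h1 : Cha α.support p (hermS α.support α) := cha_hermS p α (hs α hα).1
  exact h1.mono fun i hi => Finset.mem_range.mpr ((hs α hα).2 i hi)

theorem low_dimension (p d : ℕ) (hp : 3 ≤ p) (hd : d < 2 * p * (p - 1))
    (s : Finset (ℕ →₀ ℕ)) (c : (ℕ →₀ ℕ) → ℝ)
    (hs : ∀ α ∈ s, (α.sum fun _ k => k) = p ∧ ∀ i ∈ α.support, i < d)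
    (X : (ℕ → ℝ) → ℝ)
    (hX : ∀ ω, X ω = ∑ α ∈ s, c α *
      α.prod (fun i k => Polynomial.aeval (ω i) (Polynomial.hermite k)))
    (hne : ¬ (∀ᵐ ω ∂γ, X ω = 0)) :
    0 < (∫ ω, X ω ^ 6 ∂γ) - 15 * (∫ ω, X ω ^ 2 ∂γ) * (∫ ω, X ω ^ 4 ∂γ)
      - 10 * (∫ ω, X ω ^ 3 ∂γ) ^ 2 + 30 * (∫ ω, X ω ^ 2 ∂γ) ^ 3 ∧
    30 * (p : ℝ) * ((p : ℝ) - 1) * (2 * (p : ℝ) * ((p : ℝ) - 1) - d) * (∫ ω, X ω ^ 2 ∂γ) ^ 3
      ≤ (d : ℝ) ^ 2 * ((∫ ω, X ω ^ 6 ∂γ) - 15 * (∫ ω, X ω ^ 2 ∂γ) * (∫ ω, X ω ^ 4 ∂γ)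
      - 10 * (∫ ω, X ω ^ 3 ∂γ) ^ 2 + 30 * (∫ ω, X ω ^ 2 ∂γ) ^ 3) := by
  have hXe : ∀ ω, X ω = eval ω (chp s c) := fun ω => by rw [hX, eval_chp]
  have hI : ∀ q : ℕ, ∫ ω, X ω ^ q ∂γ = E (chp s c ^ q) := fun q => by
    rw [← integral_pow_eval]
    exact integral_congr_ae (Eventually.of_forall fun ω => by simp only [hXe])
  have hm : 0 < E (chp s c ^ 2) := by
    refine lt_of_le_of_ne (E_sq_nn _) fun h => hne ?_
    have h1 : ∫ ω, (eval ω (chp s c)) ^ 2 ∂γ = 0 := by rw [integral_pow_eval]; exact h.symm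
    have h2 : Integrable (fun ω => (eval ω (chp s c)) ^ 2) γ := by
      refine (integrable_eval (chp s c ^ 2)).congr (Eventually.of_forall fun ω => ?_)
      simp
    rw [integral_eq_zero_iff_of_nonneg (fun ω => sq_nonneg _) h2] at h1
    filter_upwards [h1] with ω hω
    rw [hXe]
    simpa using hω
  obtain ⟨q, rfl⟩ : ∃ q, p = q + 3 := ⟨p - 3, by omega⟩
  have hd' : d < 2 * (q + 3) * (q + 2) := by
    have : q + 3 - 1 = q + 2 := by omega
    rwa [this] at hd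
  obtain ⟨h1, _, h3⟩ := k6_low (cha_low c hs) (Finset.card_range d) hm hd'
  unfold k6 at h3
  simp only [hI]
  have h4 : (((q + 3 : ℕ) : ℝ) - 1) = (q : ℝ) + 2 := by push_cast; ring
  rw [h4]
  have h5 : 30 * ((q + 3 : ℕ) : ℝ) * ((q : ℝ) + 2) * (2 * ((q + 3 : ℕ) : ℝ) * ((q : ℝ) + 2) - d)
      * E (chp s c ^ 2) ^ 3
      ≤ (d : ℝ) ^ 2 * (E (chp s c ^ 6) - 15 * E (chp s c ^ 2) * E (chp s c ^ 4)
        - 10 * E (chp s c ^ 3) ^ 2 + 30 * E (chp s c ^ 2) ^ 3) := by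
    refine le_trans (le_of_eq ?_) h3
    push_cast
    ring
  refine ⟨?_, h5⟩
  have h6 : (d : ℝ) < 2 * ((q + 3 : ℕ) : ℝ) * ((q : ℝ) + 2) := by
    have : (d : ℝ) < ((2 * (q + 3) * (q + 2) : ℕ) : ℝ) := by exact_mod_cast hd'
    push_cast at this ⊢
    linarith
  have h7 : 0 < 30 * ((q + 3 : ℕ) : ℝ) * ((q : ℝ) + 2)
      * (2 * ((q + 3 : ℕ) : ℝ) * ((q : ℝ) + 2) - d) * E (chp s c ^ 2) ^ 3 := by
    have : 0 < 2 * ((q + 3 : ℕ) : ℝ) * ((q : ℝ) + 2) - d := by linarith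
    positivity
  exact pos_of_mul_pos_right (lt_of_lt_of_le h7 h5) (by positivity)

end Low

end A602
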